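import Mathlib

open MeasureTheory Set Filter Topology

namespace Pool.Agent.H822R2.Br

/-- real Beta integral -/
lemma beta_Ioo {a b : ℝ} (ha : 0 < a) (hb : 0 < b) :
    IntegrableOn (fun t : ℝ => t ^ (a - 1) * (1 - t) ^ (b - 1)) (Ioo 0 1) ∧
    ∫ t in Ioo (0:ℝ) 1, t ^ (a - 1) * (1 - t) ^ (b - 1)
      = Real.Gamma a * Real.Gamma b / Real.Gamma (a + b) := by
  have hconv := Complex.betaIntegral_convergent (u := (a : ℂ)) (v := (b : ℂ)) (by simpa) (by simpa)
  rw [intervalIntegrable_iff_integrableOn_Ioo_of_le (by norm_num)] at hconv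
  have heq : EqOn (fun t : ℝ => (((t ^ (a - 1) * (1 - t) ^ (b - 1) : ℝ)) : ℂ))
      (fun x : ℝ => (x : ℂ) ^ ((a : ℂ) - 1) * (1 - (x : ℂ)) ^ ((b : ℂ) - 1)) (Ioo 0 1) := by
    intro x hx
    have h1 : (0:ℝ) ≤ x := hx.1.le
    have h2 : (0:ℝ) ≤ 1 - x := by linarith [hx.2]
    simp only
    rw [Complex.ofReal_mul, Complex.ofReal_cpow h1, Complex.ofReal_cpow h2]
    push_cast
    rfl
  have hint : IntegrableOn (fun t : ℝ => (((t ^ (a - 1) * (1 - t) ^ (b - 1) : ℝ)) : ℂ))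
      (Ioo 0 1) := hconv.congr_fun heq.symm measurableSet_Ioo
  have hre : IntegrableOn (fun t : ℝ => t ^ (a - 1) * (1 - t) ^ (b - 1)) (Ioo 0 1) := by
    have := Integrable.re hint
    simpa [IntegrableOn] using this
  refine ⟨hre, ?_⟩
  have h1 : ((∫ t in Ioo (0:ℝ) 1, t ^ (a - 1) * (1 - t) ^ (b - 1) : ℝ) : ℂ)
      = Complex.betaIntegral a b := by
    rw [← integral_complex_ofReal, Complex.betaIntegral,
      intervalIntegral.integral_of_le (by norm_num), integral_Ioc_eq_integral_Ioo]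
    exact setIntegral_congr_fun measurableSet_Ioo heq
  have h2 := Complex.betaIntegral_eq_Gamma_mul_div (a : ℂ) (b : ℂ) (by simpa) (by simpa)
  rw [h2, ← Complex.ofReal_add, Complex.Gamma_ofReal, Complex.Gamma_ofReal,
    Complex.Gamma_ofReal] at h1
  exact_mod_cast h1

/-- generalized binomial coefficient `binom(α,k)` -/
noncomputable def bc (α : ℝ) : ℕ → ℝ
  | 0 => 1
  | k + 1 => bc α k * (α - k) / (k + 1)

lemma choose_eq_bc (α : ℝ) (k : ℕ) : Ring.choose (α : ℂ) k = (bc α k : ℂ) := by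
  induction k with
  | zero => simp [bc]
  | succ k ih =>
    have h1 := Ring.descPochhammer_eq_factorial_smul_choose (α : ℂ) (k + 1)
    have h0 := Ring.descPochhammer_eq_factorial_smul_choose (α : ℂ) k
    have h2 : (descPochhammer ℤ (k + 1)).smeval (α : ℂ)
        = (descPochhammer ℤ k).smeval (α : ℂ) * ((α : ℂ) - k) := by
      rw [descPochhammer_succ_right, Polynomial.smeval_mul, Polynomial.smeval_sub,
        Polynomial.smeval_X, Polynomial.smeval_natCast]
      simp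
    rw [h2, h0, ih] at h1
    have hk : ((k.factorial : ℕ) : ℂ) ≠ 0 := by exact_mod_cast k.factorial_ne_zero
    have hk1 : ((k : ℂ) + 1) ≠ 0 := by exact_mod_cast Nat.succ_ne_zero k
    simp only [nsmul_eq_mul, Nat.factorial_succ, Nat.cast_mul, Nat.cast_add, Nat.cast_one] at h1
    have h3 : ((bc α (k + 1) : ℝ) : ℂ) = (bc α k : ℂ) * ((α : ℂ) - k) / (k + 1) := by
      rw [bc]; push_cast; ring
    rw [h3]
    field_simp
    have : (k.factorial : ℂ) * ((bc α k : ℂ) * ((α : ℂ) - k))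
        = (k.factorial : ℂ) * (Ring.choose (α : ℂ) (k + 1) * ((k : ℂ) + 1)) := by
      linear_combination h1
    exact (mul_left_cancel₀ hk this).symm

/-- The constant `K = 1/(Γ(α)Γ(1-α)) = sin(πα)/π`. -/
noncomputable def K (α : ℝ) : ℝ := (Real.Gamma α * Real.Gamma (1 - α))⁻¹

lemma K_pos {α : ℝ} (h0 : 0 < α) (h1 : α < 1) : 0 < K α :=
  inv_pos.mpr (mul_pos (Real.Gamma_pos_of_pos h0) (Real.Gamma_pos_of_pos (by linarith)))

/-- the weight `w(t) = t^(N-α) (1-t)^α` -/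
noncomputable def w (α : ℝ) (N : ℕ) (t : ℝ) : ℝ := t ^ ((N : ℝ) - α) * (1 - t) ^ α

lemma w_int {α : ℝ} (h0 : 0 < α) (h1 : α < 1) (N : ℕ) :
    IntegrableOn (w α N) (Ioo 0 1) ∧
    ∫ t in Ioo (0:ℝ) 1, w α N t
      = Real.Gamma (N + 1 - α) * Real.Gamma (1 + α) / Real.Gamma (N + 2) := by
  have hN : (0:ℝ) ≤ N := Nat.cast_nonneg N
  have := beta_Ioo (a := (N : ℝ) + 1 - α) (b := 1 + α) (by linarith) (by linarith)
  have e1 : (N : ℝ) + 1 - α - 1 = N - α := by ring
  have e2 : (1 : ℝ) + α - 1 = α := by ring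
  have e3 : (N : ℝ) + 1 - α + (1 + α) = N + 2 := by ring
  rw [e1, e2, e3] at this
  exact this

lemma bc_eq {α : ℝ} (h0 : 0 < α) (h1 : α < 1) (k : ℕ) :
    bc α (k + 1) = (-1) ^ k * K α * ∫ t in Ioo (0:ℝ) 1, w α k t := by
  rw [(w_int h0 h1 k).2]
  induction k with
  | zero =>
    have hg : Real.Gamma (1 + α) = α * Real.Gamma α := by
      rw [add_comm]; exact Real.Gamma_add_one h0.ne'
    have hp1 := Real.Gamma_pos_of_pos h0
    have hp2 := Real.Gamma_pos_of_pos (show (0:ℝ) < 1 - α by linarith)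
    simp only [bc, K, Nat.cast_zero, zero_add, pow_zero, hg, Real.Gamma_two]
    field_simp
    ring
  | succ k ih =>
    rw [bc, ih]
    have hk : (0:ℝ) ≤ k := Nat.cast_nonneg k
    have hg1 : Real.Gamma ((k + 1 : ℕ) + 1 - α) = (k + 1 - α) * Real.Gamma (k + 1 - α) := by
      rw [← Real.Gamma_add_one (by linarith)]
      congr 1; push_cast; ring
    have hg2 : Real.Gamma ((k + 1 : ℕ) + 2) = (k + 2) * Real.Gamma (k + 2) := by
      rw [← Real.Gamma_add_one (by linarith)]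
      congr 1; push_cast; ring
    have hp := Real.Gamma_pos_of_pos (show (0:ℝ) < k + 2 by linarith)
    have hk2 : (k : ℝ) + 2 ≠ 0 := by linarith
    rw [hg1, hg2, pow_succ]
    push_cast
    have : (k : ℝ) + 1 + 1 = k + 2 := by ring
    rw [this]
    field_simp
    ring

end Pool.Agent.H822R2.Br
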