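import Pool.Agent.H822R2.Br1

open MeasureTheory Set Filter Topology

namespace Pool.Agent.H822R2.Br

/-- partial sums of the binomial series -/
noncomputable def S (α : ℝ) (N : ℕ) (x : ℂ) : ℂ := ∑ k ∈ Finset.range (N + 1), (bc α k : ℂ) * x ^ k

lemma binom_hasSum (α : ℝ) {x : ℂ} (hx : ‖x‖ < 1) :
    HasSum (fun k => (bc α k : ℂ) * x ^ k) ((1 + x) ^ (α : ℂ)) := by
  have h := (Complex.one_add_cpow_hasFPowerSeriesOnBall_zero (a := (α : ℂ))).hasSum (y := x)
    (by simpa [← ENNReal.ofReal_one, Metric.eball_ofReal] using hx)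
  simp only [zero_add] at h
  have e : (fun k => (bc α k : ℂ) * x ^ k)
      = (fun n => (binomialSeries ℂ (α : ℂ) n) fun _ => x) := by
    funext k
    rw [binomialSeries_apply, choose_eq_bc]
    simp [List.ofFn_const]
  rw [e]
  exact h

lemma w_nonneg {α : ℝ} {N : ℕ} {t : ℝ} (ht : t ∈ Ioo (0:ℝ) 1) : 0 ≤ w α N t :=
  mul_nonneg (Real.rpow_nonneg ht.1.le _) (Real.rpow_nonneg (by linarith [ht.2]) _)

lemma w_add {α : ℝ} {N i : ℕ} {t : ℝ} (ht : t ∈ Ioo (0:ℝ) 1) :
    w α (N + i) t = w α N t * t ^ i := by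
  unfold w
  have : ((N + i : ℕ) : ℝ) - α = ((N : ℝ) - α) + (i : ℕ) := by push_cast; ring
  rw [this, Real.rpow_add_natCast ht.1.ne']
  ring

/-- lower bound `|1+tx| ≥ 1 - t` for `|x| ≤ 1`. -/
lemma norm_lb {x : ℂ} (hx : ‖x‖ ≤ 1) {t : ℝ} (ht : t ∈ Ioo (0:ℝ) 1) :
    1 - t ≤ ‖1 + (t : ℂ) * x‖ := by
  have h1 : ‖(t : ℂ) * x‖ ≤ t := by
    rw [norm_mul, Complex.norm_real, Real.norm_of_nonneg ht.1.le]
    nlinarith [ht.1, norm_nonneg x]
  have h2 : ‖(1 : ℂ)‖ - ‖(t : ℂ) * x‖ ≤ ‖(1:ℂ) + (t : ℂ) * x‖ := by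
    have := norm_sub_norm_le (1 : ℂ) (-((t : ℂ) * x))
    rwa [norm_neg, sub_neg_eq_add] at this
  rw [norm_one] at h2
  linarith

lemma w_div_int {α : ℝ} (h0 : 0 < α) (h1 : α < 1) (N : ℕ) :
    IntegrableOn (fun t => w α N t / (1 - t)) (Ioo 0 1) := by
  have hN : (0:ℝ) ≤ N := Nat.cast_nonneg N
  have := (beta_Ioo (a := (N : ℝ) + 1 - α) (b := α) (by linarith) h0).1
  refine this.congr_fun ?_ measurableSet_Ioo
  intro t ht
  have e1 : (N : ℝ) + 1 - α - 1 = N - α := by ring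
  have h2 : 0 < 1 - t := by linarith [ht.2]
  simp only [w, e1]
  rw [Real.rpow_sub_one h2.ne']
  ring

lemma cont_norm (x : ℂ) : Continuous (fun t : ℝ => ‖1 + (t : ℂ) * x‖) := by fun_prop

lemma w_norm_int {α : ℝ} (h0 : 0 < α) (h1 : α < 1) (N : ℕ) {x : ℂ} (hx : ‖x‖ ≤ 1) :
    IntegrableOn (fun t => w α N t / ‖1 + (t : ℂ) * x‖) (Ioo 0 1) := by
  have hm : AEStronglyMeasurable (fun t => w α N t / ‖1 + (t : ℂ) * x‖)
      (volume.restrict (Ioo 0 1)) := by
    apply AEMeasurable.aestronglyMeasurable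
    exact (w_int h0 h1 N).1.aestronglyMeasurable.aemeasurable.div
      (cont_norm x).measurable.aemeasurable
  refine Integrable.mono' (w_div_int h0 h1 N) hm ?_
  rw [ae_restrict_iff' measurableSet_Ioo]
  filter_upwards with t ht
  have h2 : 0 < 1 - t := by linarith [ht.2]
  have h3 := norm_lb hx ht
  rw [Real.norm_of_nonneg (div_nonneg (w_nonneg ht) (norm_nonneg _))]
  exact div_le_div_of_nonneg_left (w_nonneg ht) h2 h3

/-- Integral representation of the remainder. -/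
lemma remainder {α : ℝ} (h0 : 0 < α) (h1 : α < 1) (N : ℕ) {x : ℂ} (hx : ‖x‖ < 1) :
    (1 + x) ^ (α : ℂ) - S α N x =
      (-1) ^ N * (K α : ℂ) * x ^ (N + 1) *
        ∫ t in Ioo (0:ℝ) 1, (w α N t : ℂ) / (1 + (t : ℂ) * x) := by
  have hs := binom_hasSum α hx
  have ht := (hasSum_nat_add_iff' (N + 1)).mpr hs
  -- the same series from the integrals
  let F : ℕ → ℝ → ℂ := fun i t => (w α N t : ℂ) * (-((t : ℂ) * x)) ^ i
  have hwi := (w_int h0 h1 N).1
  have hFint : ∀ i, Integrable (F i) (volume.restrict (Ioo 0 1)) := by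
    intro i
    have hwc : Integrable (fun t => (w α N t : ℂ)) (volume.restrict (Ioo 0 1)) :=
      Integrable.ofReal hwi
    refine Integrable.mono hwc ?_ ?_
    · apply AEStronglyMeasurable.mul hwc.aestronglyMeasurable
      exact Continuous.aestronglyMeasurable (by fun_prop)
    · rw [ae_restrict_iff' measurableSet_Ioo]
      filter_upwards with t ht
      simp only [F, norm_mul, norm_pow, norm_neg]
      have : ‖(t : ℂ)‖ * ‖x‖ ≤ 1 := by
        rw [Complex.norm_real, Real.norm_of_nonneg ht.1.le]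
        nlinarith [ht.1, ht.2, norm_nonneg x]
      calc ‖(w α N t : ℂ)‖ * (‖(t : ℂ)‖ * ‖x‖) ^ i ≤ ‖(w α N t : ℂ)‖ * 1 := by
            apply mul_le_mul_of_nonneg_left _ (norm_nonneg _)
            exact pow_le_one₀ (by positivity) this
        _ = _ := mul_one _
  have hFnorm : ∀ i, ∫ t in Ioo (0:ℝ) 1, ‖F i t‖ ≤ (∫ t in Ioo (0:ℝ) 1, w α N t) * ‖x‖ ^ i := by
    intro i
    rw [← integral_mul_const]
    apply setIntegral_mono_on (hFint i).norm (hwi.mul_const _) measurableSet_Ioo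
    intro t ht
    simp only [F, norm_mul, norm_pow, norm_neg]
    rw [Complex.norm_real, Complex.norm_real, Real.norm_of_nonneg ht.1.le,
      Real.norm_of_nonneg (w_nonneg ht)]
    apply mul_le_mul_of_nonneg_left _ (w_nonneg ht)
    apply pow_le_pow_left₀ (by have := ht.1; positivity)
    nlinarith [ht.1, ht.2, norm_nonneg x]
  have hFsum : Summable fun i => ∫ t in Ioo (0:ℝ) 1, ‖F i t‖ := by
    refine Summable.of_nonneg_of_le (fun i => integral_nonneg fun t => norm_nonneg _) hFnorm ?_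
    exact (summable_geometric_of_lt_one (norm_nonneg x) hx).mul_left _
  have hI := hasSum_integral_of_summable_integral_norm hFint hFsum
  have hI2 : ∫ t in Ioo (0:ℝ) 1, ∑' i, F i t
      = ∫ t in Ioo (0:ℝ) 1, (w α N t : ℂ) / (1 + (t : ℂ) * x) := by
    apply setIntegral_congr_fun measurableSet_Ioo
    intro t ht
    simp only [F]
    have hlt : ‖-((t : ℂ) * x)‖ < 1 := by
      rw [norm_neg, norm_mul, Complex.norm_real, Real.norm_of_nonneg ht.1.le]
      nlinarith [ht.1, ht.2, norm_nonneg x]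
    rw [tsum_mul_left, tsum_geometric_of_norm_lt_one hlt]
    rw [sub_neg_eq_add]
    rfl
  rw [hI2] at hI
  have hI3 := hI.mul_left ((-1) ^ N * (K α : ℂ) * x ^ (N + 1))
  have heq : (fun i => (-1) ^ N * (K α : ℂ) * x ^ (N + 1) * ∫ t in Ioo (0:ℝ) 1, F i t)
      = fun i => (bc α (i + (N + 1)) : ℂ) * x ^ (i + (N + 1)) := by
    funext i
    have hb := bc_eq h0 h1 (N + i)
    have e1 : i + (N + 1) = N + i + 1 := by ring
    rw [e1, hb]
    have hint : ∫ t in Ioo (0:ℝ) 1, F i t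
        = (-x) ^ i * ((∫ t in Ioo (0:ℝ) 1, w α (N + i) t : ℝ) : ℂ) := by
      rw [← integral_complex_ofReal, ← integral_const_mul]
      apply setIntegral_congr_fun measurableSet_Ioo
      intro t ht
      simp only [F]
      rw [w_add ht]
      push_cast
      rw [show -((t : ℂ) * x) = (t : ℂ) * (-x) by ring, mul_pow]
      ring
    rw [hint]
    push_cast
    rw [neg_pow x i, pow_add (-1 : ℂ) N i]
    ring
  rw [heq] at hI3
  exact ht.unique hI3

end Pool.Agent.H822R2.Br
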