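import Pool.Agent.H822R2.Br2

open MeasureTheory Set Filter Topology

namespace Pool.Agent.H822R2.Br

lemma cont_S (α : ℝ) (N : ℕ) : Continuous (S α N) := by
  unfold S; fun_prop

/-- `|1 + ρ y| ≥ ρ |1 + y|` for `|y| ≤ 1`, `0 ≤ ρ ≤ 1`. -/
lemma norm_scale {y : ℂ} (hy : ‖y‖ ≤ 1) {ρ : ℝ} (h0 : 0 ≤ ρ) (h1 : ρ ≤ 1) :
    ρ * ‖1 + y‖ ≤ ‖1 + (ρ : ℂ) * y‖ := by
  have hre : -1 ≤ y.re := by
    have := Complex.abs_re_le_norm y
    have := neg_abs_le y.re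
    linarith
  rw [← Real.sqrt_sq (mul_nonneg h0 (norm_nonneg _)), ← Real.sqrt_sq (norm_nonneg (1 + (ρ : ℂ) * y))]
  apply Real.sqrt_le_sqrt
  rw [mul_pow, ← Complex.normSq_eq_norm_sq, ← Complex.normSq_eq_norm_sq, Complex.normSq_apply,
    Complex.normSq_apply]
  simp only [Complex.add_re, Complex.one_re, Complex.add_im, Complex.one_im, Complex.mul_re,
    Complex.ofReal_re, Complex.ofReal_im, Complex.mul_im, zero_mul, sub_zero, zero_add, add_zero]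
  nlinarith [mul_nonneg (sub_nonneg.mpr h1) (mul_nonneg h0 (by linarith : 0 ≤ 1 + y.re)),
    mul_nonneg (sub_nonneg.mpr h1) (sub_nonneg.mpr h1)]

/-- Upper bound for odd `N` inside the disc. -/
lemma upper_inside {α : ℝ} (h0 : 0 < α) (h1 : α < 1) (N : ℕ) (hN : Odd N) {x : ℂ} (hx : ‖x‖ < 1) :
    ‖S α N x‖ ≤ ‖1 + x‖ ^ α + K α * ‖x‖ ^ (N + 1) *
      ∫ t in Ioo (0:ℝ) 1, w α N t / ‖1 + (t : ℂ) * x‖ := by
  have hr := remainder h0 h1 N hx
  rw [hN.neg_one_pow] at hr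
  have hne : (1 : ℂ) + x ≠ 0 := by
    intro h
    have : x = -1 := by linear_combination h
    rw [this, norm_neg, norm_one] at hx
    exact lt_irrefl _ hx
  have hS : S α N x = (1 + x) ^ (α : ℂ) + (K α : ℂ) * x ^ (N + 1) *
      ∫ t in Ioo (0:ℝ) 1, (w α N t : ℂ) / (1 + (t : ℂ) * x) := by
    linear_combination -hr
  rw [hS]
  refine (norm_add_le _ _).trans ?_
  apply add_le_add
  · rw [Complex.norm_cpow_of_ne_zero hne]
    simp
  · rw [norm_mul, norm_mul, norm_pow, Complex.norm_real, Real.norm_of_nonneg (K_pos h0 h1).le]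
    apply mul_le_mul_of_nonneg_left _ (mul_nonneg (K_pos h0 h1).le (by positivity))
    refine (norm_integral_le_integral_norm _).trans (le_of_eq ?_)
    apply setIntegral_congr_fun measurableSet_Ioo
    intro t ht
    simp only [norm_div]
    rw [Complex.norm_real, Real.norm_of_nonneg (w_nonneg ht)]

/-- (A): upper bound on the unit circle. -/
lemma upper_circle {α : ℝ} (h0 : 0 < α) (h1 : α < 1) (N : ℕ) (hN : Odd N) {x : ℂ}
    (hx : ‖x‖ = 1) :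
    ‖S α N x‖ ≤ ‖1 + x‖ ^ α + K α * ∫ t in Ioo (0:ℝ) 1, w α N t / ‖1 + (t : ℂ) * x‖ := by
  set J := ∫ t in Ioo (0:ℝ) 1, w α N t / ‖1 + (t : ℂ) * x‖ with hJ
  have hJ0 : 0 ≤ J := by
    apply setIntegral_nonneg measurableSet_Ioo
    intro t ht
    exact div_nonneg (w_nonneg ht) (norm_nonneg _)
  have key : ∀ ρ : ℝ, ρ ∈ Ioo (0:ℝ) 1 →
      ‖S α N ((ρ : ℂ) * x)‖ ≤ ‖1 + (ρ : ℂ) * x‖ ^ α + K α * (J / ρ) := by
    intro ρ hρ
    have hn : ‖(ρ : ℂ) * x‖ = ρ := by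
      rw [norm_mul, hx, mul_one, Complex.norm_real, Real.norm_of_nonneg hρ.1.le]
    refine (upper_inside h0 h1 N hN (x := (ρ : ℂ) * x) (by rw [hn]; exact hρ.2)).trans ?_
    rw [hn]
    apply add_le_add le_rfl
    rw [mul_assoc]
    apply mul_le_mul_of_nonneg_left _ (K_pos h0 h1).le
    have hle : ∫ t in Ioo (0:ℝ) 1, w α N t / ‖1 + (t : ℂ) * ((ρ : ℂ) * x)‖ ≤ J / ρ := by
      rw [hJ, ← integral_div]
      apply setIntegral_mono_on _ _ measurableSet_Ioo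
      · intro t ht
        have hy : ‖(t : ℂ) * x‖ ≤ 1 := by
          rw [norm_mul, hx, mul_one, Complex.norm_real, Real.norm_of_nonneg ht.1.le]
          exact ht.2.le
        have hsc := norm_scale hy hρ.1.le hρ.2.le
        have hpos : 0 < ‖1 + (t : ℂ) * x‖ :=
          lt_of_lt_of_le (by linarith [ht.2]) (norm_lb hx.le ht)
        rw [div_div]
        apply div_le_div_of_nonneg_left (w_nonneg ht) (mul_pos hpos hρ.1)
        calc ‖1 + (t : ℂ) * x‖ * ρ = ρ * ‖1 + (t : ℂ) * x‖ := mul_comm _ _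
          _ ≤ _ := hsc
          _ = _ := by congr 1; ring
      · exact w_norm_int h0 h1 N (by rw [hn]; exact hρ.2.le)
      · exact (w_norm_int h0 h1 N hx.le).div_const _
    have hI0 : 0 ≤ ∫ t in Ioo (0:ℝ) 1, w α N t / ‖1 + (t : ℂ) * ((ρ : ℂ) * x)‖ := by
      apply setIntegral_nonneg measurableSet_Ioo
      intro t ht
      exact div_nonneg (w_nonneg ht) (norm_nonneg _)
    calc ρ ^ (N + 1) * ∫ t in Ioo (0:ℝ) 1, w α N t / ‖1 + (t : ℂ) * ((ρ : ℂ) * x)‖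
        ≤ 1 * ∫ t in Ioo (0:ℝ) 1, w α N t / ‖1 + (t : ℂ) * ((ρ : ℂ) * x)‖ := by
          apply mul_le_mul_of_nonneg_right _ hI0
          exact pow_le_one₀ hρ.1.le hρ.2.le
      _ ≤ J / ρ := by rw [one_mul]; exact hle
  -- pass to the limit
  have hT : Tendsto (fun ρ : ℝ => ρ) (𝓝[<] (1:ℝ)) (𝓝 1) := tendsto_nhdsWithin_of_tendsto_nhds tendsto_id
  have hev : ∀ᶠ ρ in 𝓝[<] (1:ℝ), ρ ∈ Ioo (0:ℝ) 1 := Ioo_mem_nhdsLT (by norm_num)
  have hL : Tendsto (fun ρ : ℝ => ‖S α N ((ρ : ℂ) * x)‖) (𝓝[<] (1:ℝ)) (𝓝 ‖S α N x‖) := by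
    have hc : Continuous (fun ρ : ℝ => ‖S α N ((ρ : ℂ) * x)‖) :=
      ((cont_S α N).comp (by fun_prop)).norm
    have := (hc.tendsto 1).mono_left (nhdsWithin_le_nhds (s := Iio (1:ℝ)))
    simpa using this
  have hR : Tendsto (fun ρ : ℝ => ‖1 + (ρ : ℂ) * x‖ ^ α + K α * (J / ρ)) (𝓝[<] (1:ℝ))
      (𝓝 (‖1 + x‖ ^ α + K α * J)) := by
    have hc1 : Continuous (fun ρ : ℝ => ‖1 + (ρ : ℂ) * x‖ ^ α) := by
      apply Continuous.rpow_const (by fun_prop)
      intro _; right; exact h0.le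
    have t1 := (hc1.tendsto 1).mono_left (nhdsWithin_le_nhds (s := Iio (1:ℝ)))
    have t2 : Tendsto (fun ρ : ℝ => K α * (J / ρ)) (𝓝[<] (1:ℝ)) (𝓝 (K α * (J / 1))) :=
      (tendsto_const_nhds.div hT one_ne_zero).const_mul _
    have := t1.add t2
    simpa using this
  exact le_of_tendsto_of_tendsto hL hR (hev.mono key)

/-- (B): lower bound at `x = 1`. -/
lemma lower_one {α : ℝ} (h0 : 0 < α) (h1 : α < 1) (N : ℕ) (hN : Odd N) :
    (2:ℝ) ^ α + K α * ∫ t in Ioo (0:ℝ) 1, w α N t / (1 + t) ≤ ‖S α N 1‖ := by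
  have hwi1 : IntegrableOn (fun t => w α N t / (1 + t)) (Ioo 0 1) := by
    have := w_norm_int h0 h1 N (x := 1) (by simp)
    refine this.congr_fun ?_ measurableSet_Ioo
    intro t ht
    simp only [mul_one]
    rw [show (1:ℂ) + (t : ℂ) = ((1 + t : ℝ) : ℂ) by push_cast; ring, Complex.norm_real,
      Real.norm_of_nonneg (by linarith [ht.1])]
  set J := ∫ t in Ioo (0:ℝ) 1, w α N t / (1 + t) with hJ
  have key : ∀ ρ : ℝ, ρ ∈ Ioo (0:ℝ) 1 →
      (1 + ρ) ^ α + K α * ρ ^ (N + 1) * J ≤ ‖S α N (ρ : ℂ)‖ := by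
    intro ρ hρ
    have hn : ‖(ρ : ℂ)‖ < 1 := by
      rw [Complex.norm_real, Real.norm_of_nonneg hρ.1.le]; exact hρ.2
    have hr := remainder h0 h1 N hn
    rw [hN.neg_one_pow] at hr
    have hint : ∫ t in Ioo (0:ℝ) 1, (w α N t : ℂ) / (1 + (t : ℂ) * (ρ : ℂ))
        = ((∫ t in Ioo (0:ℝ) 1, w α N t / (1 + t * ρ) : ℝ) : ℂ) := by
      rw [← integral_complex_ofReal]
      congr 1
      funext t
      push_cast
      rfl
    have hS : S α N (ρ : ℂ) = (((1 + ρ) ^ α + K α * ρ ^ (N + 1) *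
        ∫ t in Ioo (0:ℝ) 1, w α N t / (1 + t * ρ) : ℝ) : ℂ) := by
      rw [hint] at hr
      have hc : ((1:ℂ) + (ρ : ℂ)) ^ (α : ℂ) = (((1 + ρ) ^ α : ℝ) : ℂ) := by
        rw [Complex.ofReal_cpow (by linarith [hρ.1])]
        push_cast
        rfl
      rw [hc] at hr
      push_cast
      linear_combination -hr
    rw [hS, Complex.norm_real]
    refine le_trans ?_ (le_abs_self _)
    apply add_le_add le_rfl
    have hK := K_pos h0 h1
    apply mul_le_mul_of_nonneg_left _ (mul_nonneg hK.le (pow_nonneg hρ.1.le _))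
    apply setIntegral_mono_on hwi1 _ measurableSet_Ioo
    · intro t ht
      apply div_le_div_of_nonneg_left (w_nonneg ht)
      · nlinarith [ht.1, hρ.1, mul_pos ht.1 hρ.1]
      · nlinarith [ht.1, hρ.1, hρ.2, mul_pos ht.1 (sub_pos.mpr hρ.2)]
    · have := w_norm_int h0 h1 N (x := (ρ : ℂ)) hn.le
      refine this.congr_fun ?_ measurableSet_Ioo
      intro t ht
      simp only
      rw [show (1:ℂ) + (t : ℂ) * (ρ : ℂ) = ((1 + t * ρ : ℝ) : ℂ) by push_cast; ring,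
        Complex.norm_real, Real.norm_of_nonneg]
      nlinarith [ht.1, hρ.1, mul_pos ht.1 hρ.1]
  have hev : ∀ᶠ ρ in 𝓝[<] (1:ℝ), ρ ∈ Ioo (0:ℝ) 1 := Ioo_mem_nhdsLT (by norm_num)
  have hL : Tendsto (fun ρ : ℝ => ‖S α N (ρ : ℂ)‖) (𝓝[<] (1:ℝ)) (𝓝 ‖S α N 1‖) := by
    have hc : Continuous (fun ρ : ℝ => ‖S α N (ρ : ℂ)‖) :=
      ((cont_S α N).comp (by fun_prop)).norm
    have := (hc.tendsto 1).mono_left (nhdsWithin_le_nhds (s := Iio (1:ℝ)))
    simpa using this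
  have hR : Tendsto (fun ρ : ℝ => (1 + ρ) ^ α + K α * ρ ^ (N + 1) * J) (𝓝[<] (1:ℝ))
      (𝓝 ((2:ℝ) ^ α + K α * J)) := by
    have hc1 : Continuous (fun ρ : ℝ => (1 + ρ) ^ α + K α * ρ ^ (N + 1) * J) := by
      apply Continuous.add
      · apply Continuous.rpow_const (by fun_prop)
        intro _; right; exact h0.le
      · fun_prop
    have t1 := (hc1.tendsto 1).mono_left (nhdsWithin_le_nhds (s := Iio (1:ℝ)))
    have e : ((1:ℝ) + 1) ^ α + K α * 1 ^ (N + 1) * J = (2:ℝ) ^ α + K α * J := by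
      norm_num
    rw [e] at t1
    exact t1
  exact le_of_tendsto_of_tendsto hR hL (hev.mono key)

end Pool.Agent.H822R2.Br
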