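import Pool.Agent.H822R2.Br1

open MeasureTheory Set Filter Topology

namespace Pool.Agent.H822R2.Br

/-- comparison integrand -/
noncomputable def H (α c u : ℝ) : ℝ := u ^ (α - 1) * (1 - u / √(u ^ 2 + c ^ 2))

lemma H_scale {α c : ℝ} (hc : 0 < c) {v : ℝ} (hv : 0 < v) :
    H α c (c * v) = c ^ (α - 1) * H α 1 v := by
  unfold H
  rw [Real.mul_rpow hc.le hv.le]
  have h1 : (c * v) ^ 2 + c ^ 2 = c ^ 2 * (v ^ 2 + 1 ^ 2) := by ring
  rw [h1, Real.sqrt_mul (by positivity), Real.sqrt_sq hc.le, mul_div_mul_left _ _ hc.ne']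
  ring

/-- substitution `u = t/(1-t)`. -/
lemma image_f : (fun t : ℝ => t / (1 - t)) '' Ioo 0 1 = Ioi 0 := by
  ext u
  simp only [mem_image, mem_Ioo, mem_Ioi]
  constructor
  · rintro ⟨t, ht, rfl⟩
    exact div_pos ht.1 (by linarith [ht.2])
  · intro hu
    refine ⟨u / (1 + u), ⟨by positivity, ?_⟩, ?_⟩
    · rw [div_lt_one (by linarith)]; linarith
    · field_simp
      ring

lemma inj_f : InjOn (fun t : ℝ => t / (1 - t)) (Ioo 0 1) := by
  intro a ha b hb h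
  have h1 : (1:ℝ) - a ≠ 0 := by linarith [ha.2]
  have h2 : (1:ℝ) - b ≠ 0 := by linarith [hb.2]
  simp only at h
  rw [div_eq_div_iff h1 h2] at h
  linarith

lemma deriv_f {t : ℝ} (ht : t ∈ Ioo (0:ℝ) 1) :
    HasDerivAt (fun t : ℝ => t / (1 - t)) (1 / (1 - t) ^ 2) t := by
  have h2 : (1:ℝ) - t ≠ 0 := by linarith [ht.2]
  have h : HasDerivAt (fun t : ℝ => t / (1 - t)) ((1 * (1 - t) - t * (0 - 1)) / (1 - t) ^ 2) t :=
    (hasDerivAt_id' t).div ((hasDerivAt_const t (1:ℝ)).sub (hasDerivAt_id' t)) h2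
  exact h.congr_deriv (by congr 1; ring)

lemma H_one_nonneg {α u : ℝ} (hu : 0 < u) : 0 ≤ H α 1 u := by
  unfold H
  apply mul_nonneg (Real.rpow_nonneg hu.le _)
  have h1 : u ≤ √(u ^ 2 + 1 ^ 2) := by
    apply Real.le_sqrt_of_sq_le; nlinarith
  have h2 : 0 < √(u ^ 2 + 1 ^ 2) := lt_of_lt_of_le hu h1
  rw [sub_nonneg, div_le_one h2]
  exact h1

lemma H_bound {α : ℝ} {t : ℝ} (ht : t ∈ Ioo (0:ℝ) 1) :
    |1 / (1 - t) ^ 2| • H α 1 (t / (1 - t)) ≤ t ^ (α - 1) * (1 - t) ^ ((1 - α) - 1) := by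
  have h1 : 0 < 1 - t := by linarith [ht.2]
  rw [abs_of_pos (by positivity), smul_eq_mul]
  unfold H
  have hu : 0 < t / (1 - t) := div_pos ht.1 h1
  -- sqrt (u^2+1) ≤ 1 + u
  have hs : √((t / (1 - t)) ^ 2 + 1 ^ 2) ≤ 1 / (1 - t) := by
    rw [Real.sqrt_le_left (by positivity)]
    rw [div_pow, div_pow]
    rw [div_add' _ _ _ (by positivity), div_le_div_iff_of_pos_right (by positivity)]
    nlinarith [ht.1, ht.2]
  have hs0 : 0 < √((t / (1 - t)) ^ 2 + 1 ^ 2) := Real.sqrt_pos.mpr (by positivity)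
  have h3 : 1 - t / (1 - t) / √((t / (1 - t)) ^ 2 + 1 ^ 2) ≤ 1 - t := by
    have : t ≤ t / (1 - t) / √((t / (1 - t)) ^ 2 + 1 ^ 2) := by
      rw [le_div_iff₀ hs0]
      calc t * √((t / (1 - t)) ^ 2 + 1 ^ 2) ≤ t * (1 / (1 - t)) :=
            mul_le_mul_of_nonneg_left hs ht.1.le
        _ = t / (1 - t) := by ring
    linarith
  have h4 : 0 ≤ (t / (1 - t)) ^ (α - 1) := Real.rpow_nonneg hu.le _
  calc 1 / (1 - t) ^ 2 * ((t / (1 - t)) ^ (α - 1) * (1 - t / (1 - t) / √((t / (1 - t)) ^ 2 + 1 ^ 2)))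
      ≤ 1 / (1 - t) ^ 2 * ((t / (1 - t)) ^ (α - 1) * (1 - t)) := by
        apply mul_le_mul_of_nonneg_left _ (by positivity)
        exact mul_le_mul_of_nonneg_left h3 h4
    _ = t ^ (α - 1) * (1 - t) ^ ((1 - α) - 1) := by
        rw [Real.div_rpow ht.1.le h1.le]
        have e : (1 - t) ^ ((1 - α) - 1) = 1 / ((1 - t) ^ (α - 1) * (1 - t)) := by
          rw [eq_div_iff (by positivity), mul_comm ((1 - t) ^ (α - 1)) (1 - t), ← mul_assoc,
            mul_comm _ (1 - t)]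
          nth_rewrite 1 [← Real.rpow_one (1 - t)]
          rw [← Real.rpow_add h1, ← Real.rpow_add h1]
          rw [show (1:ℝ) + (1 - α - 1) + (α - 1) = 0 by ring, Real.rpow_zero]
        rw [e]
        field_simp

lemma H_meas (α c : ℝ) : Measurable (H α c) := by
  unfold H; fun_prop

/-- `C_α = ∫_0^∞ H` is finite and `≤ Γ(α)Γ(1-α)`. -/
lemma H_int {α : ℝ} (h0 : 0 < α) (h1 : α < 1) :
    IntegrableOn (H α 1) (Ioi 0) ∧
    ∫ u in Ioi (0:ℝ), H α 1 u ≤ Real.Gamma α * Real.Gamma (1 - α) := by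
  have hB := beta_Ioo h0 (b := 1 - α) (by linarith)
  have hd : ∀ t ∈ Ioo (0:ℝ) 1,
      HasDerivWithinAt (fun t : ℝ => t / (1 - t)) (1 / (1 - t) ^ 2) (Ioo 0 1) t :=
    fun t ht => (deriv_f ht).hasDerivWithinAt
  have hm : AEStronglyMeasurable (fun t : ℝ => |1 / (1 - t) ^ 2| • H α 1 (t / (1 - t)))
      (volume.restrict (Ioo 0 1)) := by
    apply Measurable.aestronglyMeasurable
    have := H_meas α 1
    simp only [smul_eq_mul]
    fun_prop
  have hI : IntegrableOn (fun t : ℝ => |1 / (1 - t) ^ 2| • H α 1 (t / (1 - t))) (Ioo 0 1) := by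
    refine Integrable.mono' hB.1 hm ?_
    rw [ae_restrict_iff' measurableSet_Ioo]
    filter_upwards with t ht
    have h2 : 0 < 1 - t := by linarith [ht.2]
    rw [Real.norm_of_nonneg (smul_nonneg (abs_nonneg _) (H_one_nonneg (div_pos ht.1 h2)))]
    exact H_bound ht
  constructor
  · rw [← image_f]
    exact (integrableOn_image_iff_integrableOn_abs_deriv_smul measurableSet_Ioo hd inj_f _).mpr hI
  · rw [← image_f, integral_image_eq_integral_abs_deriv_smul measurableSet_Ioo hd inj_f]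
    calc ∫ t in Ioo (0:ℝ) 1, |1 / (1 - t) ^ 2| • H α 1 (t / (1 - t))
        ≤ ∫ t in Ioo (0:ℝ) 1, t ^ (α - 1) * (1 - t) ^ ((1 - α) - 1) :=
          setIntegral_mono_on hI hB.1 measurableSet_Ioo fun t ht => H_bound ht
      _ = Real.Gamma α * Real.Gamma (1 - α) := by
          rw [hB.2]; simp

/-- `∫ H_c = c^α ∫ H_1`. -/
lemma H_int_c {α c : ℝ} (h0 : 0 < α) (h1 : α < 1) (hc : 0 ≤ c) :
    IntegrableOn (H α c) (Ioi 0) ∧
    ∫ u in Ioi (0:ℝ), H α c u = c ^ α * ∫ u in Ioi (0:ℝ), H α 1 u := by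
  rcases hc.eq_or_lt with rfl | hc
  · have hz : EqOn (H α 0) (fun _ => 0) (Ioi 0) := by
      intro u hu
      have hu' : (0:ℝ) < u := hu
      simp only [H]
      rw [show u ^ 2 + (0:ℝ) ^ 2 = u ^ 2 by ring, Real.sqrt_sq hu'.le, div_self hu'.ne']
      simp
    refine ⟨IntegrableOn.congr_fun integrableOn_zero hz.symm measurableSet_Ioi, ?_⟩
    rw [setIntegral_congr_fun measurableSet_Ioi hz, Real.zero_rpow h0.ne']
    simp
  · have hI1 := (H_int h0 h1).1
    have e : EqOn (fun v => H α c (c * v)) (fun v => c ^ (α - 1) * H α 1 v) (Ioi 0) :=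
      fun v hv => H_scale hc hv
    constructor
    · have h2 : IntegrableOn (fun v => H α c (c * v)) (Ioi 0) :=
        IntegrableOn.congr_fun (hI1.const_mul _) e.symm measurableSet_Ioi
      have h3 := (integrableOn_Ioi_comp_mul_left_iff (H α c) 0 hc).mp h2
      simpa using h3
    · have h4 := integral_comp_mul_left_Ioi (H α c) 0 hc
      rw [setIntegral_congr_fun measurableSet_Ioi e, integral_const_mul, mul_zero,
        smul_eq_mul] at h4
      have h5 : ∫ u in Ioi (0:ℝ), H α c u = c * (c ^ (α - 1) * ∫ u in Ioi (0:ℝ), H α 1 u) := by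
        rw [h4, ← mul_assoc, mul_inv_cancel₀ hc.ne', one_mul]
      rw [h5, ← mul_assoc]
      congr 1
      nth_rewrite 1 [← Real.rpow_one c]
      rw [← Real.rpow_add hc]
      norm_num

/-- substitution `u = (1-t)/(2√t)`. -/
noncomputable def g (t : ℝ) : ℝ := (1 - t) / (2 * √t)

lemma image_g : g '' Ioo 0 1 = Ioi 0 := by
  ext u
  simp only [mem_image, mem_Ioo, mem_Ioi]
  constructor
  · rintro ⟨t, ht, rfl⟩
    unfold g
    exact div_pos (by linarith [ht.2]) (mul_pos two_pos (Real.sqrt_pos.mpr ht.1))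
  · intro hu
    have hs := Real.sq_sqrt (show (0:ℝ) ≤ u ^ 2 + 1 by positivity)
    have hs0 := Real.sqrt_nonneg (u ^ 2 + 1)
    set s := √(u ^ 2 + 1)
    have hlt : u < s := by nlinarith
    have hlt2 : s < 1 + u := by nlinarith
    refine ⟨(s - u) ^ 2, ⟨by nlinarith [sub_pos.mpr hlt], by nlinarith⟩, ?_⟩
    unfold g
    rw [Real.sqrt_sq (by linarith)]
    have : 2 * (s - u) ≠ 0 := by linarith
    rw [div_eq_iff this]
    nlinarith

lemma inj_g : InjOn g (Ioo 0 1) := by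
  have : StrictAntiOn g (Ioo 0 1) := by
    intro a ha b hb hab
    unfold g
    have h1 := Real.sqrt_pos.mpr ha.1
    have h2 : √a < √b := Real.sqrt_lt_sqrt ha.1.le hab
    rw [div_lt_div_iff₀ (by linarith) (by linarith)]
    have h3 : 0 < 1 - b := by linarith [hb.2]
    nlinarith
  exact this.injOn

lemma deriv_g {t : ℝ} (ht : t ∈ Ioo (0:ℝ) 1) :
    HasDerivAt g (-(1 + t) / (4 * t * √t)) t := by
  have h1 := Real.sqrt_pos.mpr ht.1
  have hs := Real.hasDerivAt_sqrt ht.1.ne'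
  have h : HasDerivAt g (((0 - 1) * (2 * √t) - (1 - t) * (2 * (1 / (2 * √t)))) / (2 * √t) ^ 2) t :=
    ((hasDerivAt_const t (1:ℝ)).sub (hasDerivAt_id' t)).div (hs.const_mul 2)
    (mul_pos two_pos h1).ne'
  refine h.congr_deriv ?_
  have hsq := Real.mul_self_sqrt ht.1.le
  have ht0 := ht.1
  have e : √t ^ 2 = t := Real.sq_sqrt ht.1.le
  have e2 : (2 * √t) ^ 2 = 4 * t := by rw [mul_pow, e]; norm_num
  rw [e2, div_eq_div_iff (by positivity) (by positivity)]
  have e5 : (1 - t) * (2 * (1 / (2 * √t))) = (1 - t) / √t := by field_simp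
  rw [e5]
  field_simp
  have e4 : √t ^ 4 = t * t := by
    rw [show √t ^ 4 = √t ^ 2 * √t ^ 2 by ring, e]
  rw [e]
  ring

end Pool.Agent.H822R2.Br
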