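import Pool.Agent.H822R2.Br3
import Pool.Agent.H822R2.Br4

open MeasureTheory Set Filter Topology

namespace Pool.Agent.H822R2.Br

lemma norm_sq_formula {x : ℂ} (hx : ‖x‖ = 1) (t : ℝ) :
    ‖1 + (t : ℂ) * x‖ ^ 2 = (1 - t) ^ 2 + t * ‖1 + x‖ ^ 2 := by
  have h1 : x.re * x.re + x.im * x.im = 1 := by
    rw [← Complex.normSq_apply, Complex.normSq_eq_norm_sq, hx]; norm_num
  rw [← Complex.normSq_eq_norm_sq, ← Complex.normSq_eq_norm_sq, Complex.normSq_apply,
    Complex.normSq_apply]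
  simp only [Complex.add_re, Complex.one_re, Complex.add_im, Complex.one_im, Complex.mul_re,
    Complex.ofReal_re, Complex.ofReal_im, Complex.mul_im, zero_mul, sub_zero, zero_add, add_zero]
  linear_combination (t ^ 2 - t) * h1

/-- pointwise comparison after the substitution `u = g t`. -/
lemma pointwise {α : ℝ} (h0 : 0 < α) (h1 : α < 1) {N : ℕ} (hN : 1 ≤ N) {x : ℂ} (hx : ‖x‖ = 1)
    {t : ℝ} (ht : t ∈ Ioo (0:ℝ) 1) :
    w α N t / ‖1 + (t : ℂ) * x‖ - w α N t / (1 + t) ≤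
      |-(1 + t) / (4 * t * √t)| • (2 ^ α * (H α 1 (g t) - H α (‖1 + x‖ / 2) (g t))) := by
  have ht0 := ht.1
  have ht1 : 0 < 1 - t := by linarith [ht.2]
  have hst : 0 < √t := Real.sqrt_pos.mpr ht0
  have hs2 : √t ^ 2 = t := Real.sq_sqrt ht0.le
  have hr : 0 < ‖1 + (t : ℂ) * x‖ := lt_of_lt_of_le ht1 (norm_lb hx.le ht)
  have hr2 := norm_sq_formula hx t
  have hle2 : ‖1 + x‖ ≤ 2 := by
    calc ‖1 + x‖ ≤ ‖(1:ℂ)‖ + ‖x‖ := norm_add_le _ _
      _ = 2 := by rw [norm_one, hx]; norm_num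
  have hx0 := norm_nonneg (1 + x)
  have hrle : ‖1 + (t : ℂ) * x‖ ≤ 1 + t := by
    have h4 : ‖1 + x‖ ^ 2 ≤ 4 := by nlinarith
    have : ‖1 + (t : ℂ) * x‖ ^ 2 ≤ (1 + t) ^ 2 := by
      rw [hr2]; nlinarith [mul_le_mul_of_nonneg_left h4 ht0.le]
    exact le_of_sq_le_sq this (by linarith)
  set r := ‖1 + (t : ℂ) * x‖ with hrdef
  have hg : 0 < g t := div_pos ht1 (by positivity)
  have sq1 : √(g t ^ 2 + (‖1 + x‖ / 2) ^ 2) = r / (2 * √t) := by
    rw [Real.sqrt_eq_iff_mul_self_eq (by positivity) (by positivity)]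
    unfold g
    have : r / (2 * √t) * (r / (2 * √t)) = r ^ 2 / (4 * √t ^ 2) := by field_simp; norm_num
    rw [this, hs2, hr2, div_pow, mul_pow, hs2]
    field_simp
    ring
  have sq2 : √(g t ^ 2 + 1 ^ 2) = (1 + t) / (2 * √t) := by
    rw [Real.sqrt_eq_iff_mul_self_eq (by positivity) (by positivity)]
    unfold g
    have : (1 + t) / (2 * √t) * ((1 + t) / (2 * √t)) = (1 + t) ^ 2 / (4 * √t ^ 2) := by
      field_simp; norm_num
    rw [this, hs2, div_pow, mul_pow, hs2]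
    field_simp
    ring
  have hH : H α 1 (g t) - H α (‖1 + x‖ / 2) (g t)
      = g t ^ α * (2 * √t * (1 / r - 1 / (1 + t))) := by
    unfold H
    rw [sq1, sq2, Real.rpow_sub_one hg.ne']
    field_simp
    ring
  have habs : |-(1 + t) / (4 * t * √t)| = (1 + t) / (4 * t * √t) := by
    rw [neg_div, abs_neg, abs_of_pos (by positivity)]
  have hdiff : 0 ≤ 1 / r - 1 / (1 + t) := by
    rw [sub_nonneg]
    exact one_div_le_one_div_of_le hr hrle
  rw [habs, hH, smul_eq_mul]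
  have hgα : g t ^ α = (1 - t) ^ α / (2 ^ α * √t ^ α) := by
    unfold g
    rw [Real.div_rpow ht1.le (by positivity), Real.mul_rpow (by norm_num) hst.le]
  rw [hgα]
  have h2α : (0:ℝ) < 2 ^ α := Real.rpow_pos_of_pos two_pos _
  have hsα : (0:ℝ) < √t ^ α := Real.rpow_pos_of_pos hst _
  have htα : (0:ℝ) ≤ (1 - t) ^ α := Real.rpow_nonneg ht1.le _
  have hw : w α N t ≤ (1 + t) / (2 * t) * ((1 - t) ^ α / √t ^ α) := by
    unfold w
    have hsq : √t ^ α = t ^ (α / 2) := by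
      rw [Real.sqrt_eq_rpow, ← Real.rpow_mul ht0.le]
      congr 1; ring
    have h3 : t ^ ((N:ℝ) - α) * √t ^ α ≤ 1 := by
      rw [hsq, ← Real.rpow_add ht0]
      apply Real.rpow_le_one ht0.le ht.2.le
      have : (1:ℝ) ≤ N := by exact_mod_cast hN
      linarith
    have h4 : t ^ ((N:ℝ) - α) ≤ 1 / √t ^ α := by
      rw [le_div_iff₀ hsα]; exact h3
    calc t ^ ((N:ℝ) - α) * (1 - t) ^ α ≤ 1 / √t ^ α * (1 - t) ^ α :=
          mul_le_mul_of_nonneg_right h4 htα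
      _ = 1 * ((1 - t) ^ α / √t ^ α) := by ring
      _ ≤ (1 + t) / (2 * t) * ((1 - t) ^ α / √t ^ α) := by
          apply mul_le_mul_of_nonneg_right _ (div_nonneg htα hsα.le)
          rw [le_div_iff₀ (by positivity)]
          linarith [ht.2]
  calc w α N t / r - w α N t / (1 + t) = w α N t * (1 / r - 1 / (1 + t)) := by ring
    _ ≤ (1 + t) / (2 * t) * ((1 - t) ^ α / √t ^ α) * (1 / r - 1 / (1 + t)) :=
        mul_le_mul_of_nonneg_right hw hdiff
    _ = (1 + t) / (4 * t * √t) *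
        (2 ^ α * ((1 - t) ^ α / (2 ^ α * √t ^ α) * (2 * √t * (1 / r - 1 / (1 + t))))) := by
        field_simp
        ring

/-- (C) the key inequality. -/
lemma key {α : ℝ} (h0 : 0 < α) (h1 : α < 1) {N : ℕ} (hN : 1 ≤ N) {x : ℂ} (hx : ‖x‖ = 1) :
    K α * ((∫ t in Ioo (0:ℝ) 1, w α N t / ‖1 + (t : ℂ) * x‖)
      - ∫ t in Ioo (0:ℝ) 1, w α N t / (1 + t)) ≤ 2 ^ α - ‖1 + x‖ ^ α := by
  have hwi := w_norm_int h0 h1 N hx.le
  have hwi1 : IntegrableOn (fun t => w α N t / (1 + t)) (Ioo 0 1) := by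
    have := w_norm_int h0 h1 N (x := 1) (by simp)
    refine this.congr_fun ?_ measurableSet_Ioo
    intro t ht
    simp only [mul_one]
    rw [show (1:ℂ) + (t : ℂ) = ((1 + t : ℝ) : ℂ) by push_cast; ring, Complex.norm_real,
      Real.norm_of_nonneg (by linarith [ht.1])]
  set c := ‖1 + x‖ / 2 with hc
  have hc0 : 0 ≤ c := by positivity
  have hH1 := H_int h0 h1
  have hHc := H_int_c h0 h1 hc0
  have hd : ∀ t ∈ Ioo (0:ℝ) 1, HasDerivWithinAt g (-(1 + t) / (4 * t * √t)) (Ioo 0 1) t :=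
    fun t ht => (deriv_g ht).hasDerivWithinAt
  have hGint : IntegrableOn (fun u => 2 ^ α * (H α 1 u - H α c u)) (Ioi 0) :=
    (hH1.1.sub hHc.1).const_mul _
  have hGint' : IntegrableOn (fun t => |-(1 + t) / (4 * t * √t)| •
      (2 ^ α * (H α 1 (g t) - H α c (g t)))) (Ioo 0 1) := by
    have h := hGint
    rw [← image_g] at h
    exact (integrableOn_image_iff_integrableOn_abs_deriv_smul measurableSet_Ioo hd inj_g
      (fun u => 2 ^ α * (H α 1 u - H α c u))).mp h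
  have hle : (∫ t in Ioo (0:ℝ) 1, w α N t / ‖1 + (t : ℂ) * x‖)
      - ∫ t in Ioo (0:ℝ) 1, w α N t / (1 + t) ≤
      ∫ u in Ioi (0:ℝ), 2 ^ α * (H α 1 u - H α c u) := by
    rw [← integral_sub hwi hwi1, ← image_g,
      integral_image_eq_integral_abs_deriv_smul measurableSet_Ioo hd inj_g]
    exact setIntegral_mono_on (hwi.sub hwi1) hGint' measurableSet_Ioo
      fun t ht => pointwise h0 h1 hN hx ht
  have hval : ∫ u in Ioi (0:ℝ), 2 ^ α * (H α 1 u - H α c u)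
      = 2 ^ α * ((1 - c ^ α) * ∫ u in Ioi (0:ℝ), H α 1 u) := by
    rw [integral_const_mul, integral_sub hH1.1 hHc.1, hHc.2]
    ring
  have hc1 : c ≤ 1 := by
    have : ‖1 + x‖ ≤ 2 := by
      calc ‖1 + x‖ ≤ ‖(1:ℂ)‖ + ‖x‖ := norm_add_le _ _
        _ = 2 := by rw [norm_one, hx]; norm_num
    rw [hc]; linarith
  have hcα : c ^ α ≤ 1 := Real.rpow_le_one hc0 hc1 h0.le
  have h2α : (0:ℝ) < 2 ^ α := Real.rpow_pos_of_pos two_pos _
  have hK := K_pos h0 h1
  have hG : K α * (Real.Gamma α * Real.Gamma (1 - α)) = 1 := by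
    unfold K
    apply inv_mul_cancel₀
    exact (mul_pos (Real.Gamma_pos_of_pos h0) (Real.Gamma_pos_of_pos (by linarith))).ne'
  have h2c : (2:ℝ) ^ α * c ^ α = ‖1 + x‖ ^ α := by
    rw [← Real.mul_rpow (by norm_num) hc0, hc]
    congr 1; ring
  calc K α * ((∫ t in Ioo (0:ℝ) 1, w α N t / ‖1 + (t : ℂ) * x‖)
      - ∫ t in Ioo (0:ℝ) 1, w α N t / (1 + t))
      ≤ K α * (2 ^ α * ((1 - c ^ α) * ∫ u in Ioi (0:ℝ), H α 1 u)) := by
        rw [← hval]; exact mul_le_mul_of_nonneg_left hle hK.le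
    _ ≤ K α * (2 ^ α * ((1 - c ^ α) * (Real.Gamma α * Real.Gamma (1 - α)))) := by
        apply mul_le_mul_of_nonneg_left _ hK.le
        apply mul_le_mul_of_nonneg_left _ h2α.le
        exact mul_le_mul_of_nonneg_left hH1.2 (by linarith)
    _ = 2 ^ α * (1 - c ^ α) * (K α * (Real.Gamma α * Real.Gamma (1 - α))) := by ring
    _ = 2 ^ α - ‖1 + x‖ ^ α := by rw [hG, mul_one, mul_sub, mul_one, h2c]

/-- Brannan's inequality for the partial sums. -/
theorem S_le {α : ℝ} (h0 : 0 < α) (h1 : α < 1) {N : ℕ} (hN : Odd N) {x : ℂ} (hx : ‖x‖ = 1) :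
    ‖S α N x‖ ≤ ‖S α N 1‖ := by
  have hA := upper_circle h0 h1 N hN hx
  have hB := lower_one h0 h1 N hN
  have hC := key h0 h1 hN.pos hx
  linarith

end Pool.Agent.H822R2.Br
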