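import Pool.Agent.H822R2.Br5

open MeasureTheory Set Filter Topology

namespace Pool.Agent.H822R2.Br

lemma summable_bc (α : ℝ) {y : ℂ} (hy : ‖y‖ < 1) :
    Summable fun k => ‖(bc α k : ℂ) * y ^ k‖ := by
  obtain ⟨s, hs1, hs2⟩ := exists_between hy
  have hs0 : 0 ≤ s := (norm_nonneg y).trans hs1.le
  have hss : ‖(s : ℂ)‖ < 1 := by
    rw [Complex.norm_real, Real.norm_of_nonneg hs0]; exact hs2
  exact (binom_hasSum α hy).summable.norm

lemma hasSum_f (α : ℝ) {x z : ℂ} (hx : ‖x‖ ≤ 1) (hz : ‖z‖ < 1) :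
    HasSum (fun n => z ^ n • S α n x) ((1 + x * z) ^ (α : ℂ) / (1 - z)) := by
  have hxz : ‖x * z‖ < 1 := by
    rw [norm_mul]
    nlinarith [norm_nonneg x, norm_nonneg z]
  have h1 := binom_hasSum α hxz
  have h2 := hasSum_geometric_of_norm_lt_one hz
  have h3 := hasSum_sum_range_mul_of_summable_norm (summable_bc α hxz)
    (summable_norm_geometric_of_norm_lt_one hz)
  rw [h1.tsum_eq, h2.tsum_eq, ← div_eq_mul_inv] at h3
  have e : (fun n => z ^ n • S α n x)
      = fun n => ∑ k ∈ Finset.range (n + 1), (bc α k : ℂ) * (x * z) ^ k * z ^ (n - k) := by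
    funext n
    rw [S, smul_eq_mul, Finset.mul_sum]
    apply Finset.sum_congr rfl
    intro k hk
    have hk' : k ≤ n := Nat.lt_succ_iff.mp (Finset.mem_range.mp hk)
    rw [mul_pow]
    have : z ^ n = z ^ k * z ^ (n - k) := by rw [← pow_add, Nat.add_sub_cancel' hk']
    rw [this]
    ring
  rw [e]
  exact h3

theorem taylor_eq (α : ℝ) {x : ℂ} (hx : ‖x‖ ≤ 1) (n : ℕ) :
    iteratedDeriv n (fun z : ℂ => (1 + x * z) ^ (α : ℂ) / (1 - z)) 0 / (n.factorial : ℂ)
      = S α n x := by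
  have h1 : HasFPowerSeriesAt (fun z : ℂ => (1 + x * z) ^ (α : ℂ) / (1 - z))
      (FormalMultilinearSeries.ofScalars ℂ (fun n => S α n x)) 0 := by
    rw [hasFPowerSeriesAt_iff]
    have : ∀ᶠ z in 𝓝 (0:ℂ), ‖z‖ < 1 := by
      have := Metric.ball_mem_nhds (0:ℂ) one_pos
      filter_upwards [this] with z hz
      simpa using hz
    filter_upwards [this] with z hz
    simp only [FormalMultilinearSeries.coeff_ofScalars, zero_add]
    exact hasSum_f α hx hz
  have h2 := (h1.analyticAt).hasFPowerSeriesAt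
  have h3 := h2.eq_formalMultilinearSeries h1
  have h4 := congrArg (fun p => FormalMultilinearSeries.coeff p n) h3
  simpa only [FormalMultilinearSeries.coeff_ofScalars] using h4

end Pool.Agent.H822R2.Br
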